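import Mathlib

/-! # The second moment of the hypergeometric distribution -/

set_option autoImplicit false

namespace Pool.Agent.U404.AS

open Finset

/-- sets of `k` elements with a given subset -/
lemma supersets {α : Type} [DecidableEq α] (V I : Finset α) (T k : ℕ) (hIV : I ⊆ V) (hI : I.card = k) :
    ((V.powersetCard T).filter (fun s => I ⊆ s)).card ≤ (V.card - k).choose (T - k) := by
  have h1 : (V \ I).card = V.card - k := by rw [card_sdiff_of_subset hIV, hI]
  rw [← h1, ← card_powersetCard]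
  apply card_le_card_of_injOn (fun s => s \ I)
  · intro s hs
    rw [mem_coe, mem_filter, mem_powersetCard] at hs
    rw [mem_coe, mem_powersetCard]
    refine ⟨sdiff_subset_sdiff hs.1.1 (Subset.refl _), ?_⟩
    rw [card_sdiff_of_subset hs.2, hI, hs.1.2]
  · intro s hs t ht hst
    rw [mem_coe, mem_filter] at hs ht
    simp only at hst
    rw [← sdiff_union_of_subset hs.2, ← sdiff_union_of_subset ht.2, hst]

/-- sets of `k` elements with a given element -/
lemma containing {F : Finset ℕ} {k : ℕ} (hk : 1 ≤ k) {a : ℕ} (ha : a ∈ F) :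
    ((F.powersetCard k).filter (fun I => a ∈ I)).card = (F.card - 1).choose (k - 1) := by
  have h1 : (F.powersetCard k).filter (fun I => a ∈ I) = ((F.erase a).powersetCard (k - 1)).image (insert a) := by
    ext I
    rw [mem_filter, mem_powersetCard, mem_image]
    constructor
    · rintro ⟨⟨h1, h2⟩, h3⟩
      refine ⟨I.erase a, ?_, insert_erase h3⟩
      rw [mem_powersetCard, card_erase_of_mem h3, h2]
      exact ⟨erase_subset_erase _ h1, rfl⟩
    · rintro ⟨J, hJ, rfl⟩
      rw [mem_powersetCard] at hJ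
      have haJ : a ∉ J := fun h => (notMem_erase a F) (hJ.1 h)
      refine ⟨⟨?_, ?_⟩, mem_insert_self _ _⟩
      · exact insert_subset ha (hJ.1.trans (erase_subset _ _))
      · rw [card_insert_of_notMem haJ, hJ.2]
        omega
  rw [h1, card_image_of_injOn, card_powersetCard, card_erase_of_mem ha]
  intro J hJ J' hJ' h
  rw [mem_coe, mem_powersetCard] at hJ hJ'
  have haJ : a ∉ J := fun h => (notMem_erase a F) (hJ.1 h)
  have haJ' : a ∉ J' := fun h => (notMem_erase a F) (hJ'.1 h)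
  rw [← erase_insert haJ, ← erase_insert haJ', h]

/-- number of elements of `V` in `I` -/
def X (V I : Finset ℕ) : ℕ := (V.filter (fun a => a ∈ I)).card

lemma X_eq (V I : Finset ℕ) : (X V I : ℝ) = ∑ a ∈ V, (if a ∈ I then (1 : ℝ) else 0) := by
  unfold X
  rw [card_filter]
  push_cast
  rfl

/-- Chebyshev's inequality for the hypergeometric distribution -/
lemma cheb {F V : Finset ℕ} (hVF : V ⊆ F) {k : ℕ} (hk : 2 ≤ k) (hkF : k ≤ F.card) {t : ℝ}
    (ht : t ≤ (k : ℝ) * V.card / F.card) :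
    (((F.powersetCard k).filter (fun I => (X V I : ℝ) < t)).card : ℝ) * ((k : ℝ) * V.card / F.card - t) ^ 2 ≤
      (k : ℝ) * V.card / F.card * (F.card.choose k : ℝ) := by
  obtain ⟨n, hn⟩ : ∃ n : ℕ, n = F.card := ⟨_, rfl⟩
  obtain ⟨v, hv⟩ : ∃ v : ℕ, v = V.card := ⟨_, rfl⟩
  rw [← hn, ← hv] at ht ⊢
  rw [← hn] at hkF
  have hn2 : 2 ≤ n := by omega
  have hnr : (2 : ℝ) ≤ n := by exact_mod_cast hn2
  have hvn : v ≤ n := by rw [hv, hn]; exact card_le_card hVF
  have hvnr : (v : ℝ) ≤ n := by exact_mod_cast hvn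
  obtain ⟨m, hm⟩ : ∃ m : ℝ, m = (k : ℝ) * v / n := ⟨_, rfl⟩
  rw [← hm] at ht ⊢
  obtain ⟨C, hC⟩ : ∃ C : ℝ, C = (n.choose k : ℝ) := ⟨_, rfl⟩
  have hC0 : 0 ≤ C := by rw [hC]; exact Nat.cast_nonneg _
  have hc1 : (n : ℝ) * ((n - 1).choose (k - 1) : ℝ) = k * C := by
    have h := Nat.add_one_mul_choose_eq (n - 1) (k - 1)
    rw [show n - 1 + 1 = n by omega, show k - 1 + 1 = k by omega] at h
    rw [hC]
    have h' : (n : ℝ) * ((n - 1).choose (k - 1) : ℝ) = (n.choose k : ℝ) * k := by exact_mod_cast h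
    rw [h']; ring
  have hc2 : ((n : ℝ) - 1) * ((n - 2).choose (k - 2) : ℝ) = (k - 1) * ((n - 1).choose (k - 1) : ℝ) := by
    have h := Nat.add_one_mul_choose_eq (n - 2) (k - 2)
    rw [show n - 2 + 1 = n - 1 by omega, show k - 2 + 1 = k - 1 by omega] at h
    have h' : (((n - 1 : ℕ) : ℝ)) * ((n - 2).choose (k - 2) : ℝ) = ((n - 1).choose (k - 1) : ℝ) * ((k - 1 : ℕ) : ℝ) := by
      exact_mod_cast h
    rw [Nat.cast_sub (by omega), Nat.cast_sub (by omega), Nat.cast_one] at h'
    rw [h']; ring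
  obtain ⟨c1, hc1e⟩ : ∃ c1 : ℝ, c1 = ((n - 1).choose (k - 1) : ℝ) := ⟨_, rfl⟩
  obtain ⟨c2, hc2e⟩ : ∃ c2 : ℝ, c2 = ((n - 2).choose (k - 2) : ℝ) := ⟨_, rfl⟩
  rw [← hc1e] at hc1 hc2
  rw [← hc2e] at hc2
  have hc10 : 0 ≤ c1 := by rw [hc1e]; exact Nat.cast_nonneg _
  have hc20 : 0 ≤ c2 := by rw [hc2e]; exact Nat.cast_nonneg _
  -- first moment
  have hS1 : ∑ I ∈ F.powersetCard k, (X V I : ℝ) = v * c1 := by
    simp only [X_eq]
    rw [sum_comm]
    have : ∀ a ∈ V, ∑ I ∈ F.powersetCard k, (if a ∈ I then (1 : ℝ) else 0) = c1 := by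
      intro a ha
      rw [sum_boole, containing (by omega) (hVF ha), ← hn, hc1e]
    rw [sum_congr rfl this, sum_const, nsmul_eq_mul, ← hv]
  -- second moment
  have hS2 : ∑ I ∈ F.powersetCard k, (X V I : ℝ) ^ 2 ≤ v * c1 + v * (v - 1) * c2 := by
    have e1 : ∀ I, (X V I : ℝ) ^ 2 = ∑ a ∈ V, ∑ b ∈ V, (if a ∈ I ∧ b ∈ I then (1 : ℝ) else 0) := by
      intro I
      rw [sq, X_eq, sum_mul_sum]
      refine sum_congr rfl fun a _ => sum_congr rfl fun b _ => ?_
      by_cases h1 : a ∈ I <;> by_cases h2 : b ∈ I <;> simp [h1, h2]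
    simp only [e1]
    rw [sum_comm]
    have e2 : ∀ a ∈ V, ∑ I ∈ F.powersetCard k, ∑ b ∈ V, (if a ∈ I ∧ b ∈ I then (1 : ℝ) else 0) ≤
        c1 + (v - 1) * c2 := by
      intro a ha
      rw [sum_comm, ← add_sum_erase V _ ha]
      apply add_le_add
      · simp only [and_self]
        rw [sum_boole, containing (by omega) (hVF ha), ← hn, hc1e]
      · have e3 : ∀ b ∈ V.erase a, ∑ I ∈ F.powersetCard k, (if a ∈ I ∧ b ∈ I then (1 : ℝ) else 0) ≤ c2 := by
          intro b hb
          rw [sum_boole, hc2e]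
          have hab : ({a, b} : Finset ℕ).card = 2 := card_pair (ne_of_mem_erase hb).symm
          have h4 := supersets F {a, b} k 2 (by
            intro x hx
            rw [mem_insert, mem_singleton] at hx
            rcases hx with rfl | rfl
            · exact hVF ha
            · exact hVF (mem_of_mem_erase hb)) hab
          rw [← hn] at h4
          rw [Nat.cast_le]
          refine le_trans (le_of_eq ?_) h4
          congr 1
          apply filter_congr
          intro I _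
          rw [insert_subset_iff, singleton_subset_iff]
        refine (sum_le_sum e3).trans (le_of_eq ?_)
        rw [sum_const, nsmul_eq_mul, card_erase_of_mem ha, ← hv, Nat.cast_sub (by
          rw [hv]; exact card_pos.2 ⟨a, ha⟩), Nat.cast_one]
    refine (sum_le_sum e2).trans (le_of_eq ?_)
    rw [sum_const, nsmul_eq_mul, ← hv]
    ring
  have hS0 : ∑ I ∈ F.powersetCard k, (1 : ℝ) = C := by
    rw [sum_const, card_powersetCard, nsmul_eq_mul, mul_one, ← hn, hC]
  have hmc : v * c1 = m * C := by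
    have h1 : (n : ℝ) * (v * c1) = n * (m * C) := by
      rw [hm]
      field_simp
      linear_combination (v : ℝ) * hc1
    exact mul_left_cancel₀ (by positivity) h1
  have hm0 : 0 ≤ m := by rw [hm]; positivity
  have hv2 : v * (v - 1) * c2 ≤ m ^ 2 * C := by
    rcases Nat.eq_zero_or_pos v with h0 | h0
    · rw [h0]
      simp only [Nat.cast_zero, zero_mul]
      positivity
    have hv1 : (1 : ℝ) ≤ v := by exact_mod_cast h0
    -- (v-1) c2 ≤ m c1 ... because (v-1)/(n-1) ≤ v/n
    have h1 : (v - 1 : ℝ) * n ≤ v * (n - 1) := by nlinarith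
    have hn1 : (0 : ℝ) < (n : ℝ) - 1 := by linarith
    have h2 : ((n : ℝ) - 1) * n * ((v - 1) * c2) ≤ ((n : ℝ) - 1) * n * (m * c1) := by
      have hk1 : (0 : ℝ) ≤ (k : ℝ) - 1 := by
        have : (2 : ℝ) ≤ k := by exact_mod_cast hk
        linarith
      calc ((n : ℝ) - 1) * n * ((v - 1) * c2) = ((v - 1) * n) * (((n : ℝ) - 1) * c2) := by ring
        _ = ((v - 1) * n) * ((k - 1) * c1) := by rw [hc2]
        _ ≤ (v * (n - 1)) * ((k - 1) * c1) := mul_le_mul_of_nonneg_right h1 (mul_nonneg hk1 hc10)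
        _ ≤ (v * (n - 1)) * (k * c1) := by
            apply mul_le_mul_of_nonneg_left _ (by positivity)
            exact mul_le_mul_of_nonneg_right (by linarith) hc10
        _ = ((n : ℝ) - 1) * n * (m * c1) := by
            rw [hm]
            field_simp
    have h3 : (v - 1) * c2 ≤ m * c1 := le_of_mul_le_mul_left h2 (by positivity)
    calc v * (v - 1) * c2 = v * ((v - 1) * c2) := by ring
      _ ≤ v * (m * c1) := mul_le_mul_of_nonneg_left h3 (by positivity)
      _ = m * (v * c1) := by ring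
      _ = m ^ 2 * C := by rw [hmc]; ring
  have hvar : ∑ I ∈ F.powersetCard k, ((X V I : ℝ) - m) ^ 2 ≤ m * C := by
    have e4 : ∑ I ∈ F.powersetCard k, ((X V I : ℝ) - m) ^ 2 =
        ∑ I ∈ F.powersetCard k, (X V I : ℝ) ^ 2 - 2 * m * ∑ I ∈ F.powersetCard k, (X V I : ℝ) +
          m ^ 2 * ∑ I ∈ F.powersetCard k, (1 : ℝ) := by
      rw [mul_sum, mul_sum, ← sum_sub_distrib, ← sum_add_distrib]
      refine sum_congr rfl fun I _ => ?_
      ring
    rw [e4, hS1, hS0, hmc]
    rw [hmc] at hS2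
    nlinarith
  calc (((F.powersetCard k).filter (fun I => (X V I : ℝ) < t)).card : ℝ) * (m - t) ^ 2
      = ∑ I ∈ (F.powersetCard k).filter (fun I => (X V I : ℝ) < t), (m - t) ^ 2 := by
        rw [sum_const, nsmul_eq_mul]
    _ ≤ ∑ I ∈ (F.powersetCard k).filter (fun I => (X V I : ℝ) < t), ((X V I : ℝ) - m) ^ 2 := by
        apply sum_le_sum
        intro I hI
        rw [mem_filter] at hI
        nlinarith [hI.2]
    _ ≤ ∑ I ∈ F.powersetCard k, ((X V I : ℝ) - m) ^ 2 :=
        sum_le_sum_of_subset_of_nonneg (filter_subset _ _) fun _ _ _ => sq_nonneg _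
    _ ≤ m * C := hvar
    _ = _ := by rw [hC]

end Pool.Agent.U404.AS
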