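import Pool.Agent.U404.AS.Bad
import Pool.Agent.U404.AS.Hyp
import Pool.Agent.U404.CP.Low

/-! # Almost all sets of `k` shifts contain many shifts at which there are primes simultaneously -/

set_option autoImplicit false

namespace Pool.Agent.U404.AS

open Finset Filter Topology
open Pool.Agent.U403.Dick (Pz Pz_pos mert log_lin)
open Pool.Agent.U404.CP (select_nat)

/-- Euler's constant: `exp (- γ)` -/
noncomputable def e0 : ℝ := Real.exp (-Real.eulerMascheroniConstant)

lemma e0_pos : 0 < e0 := Real.exp_pos _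

/-- Mertens' theorem at `T(k) = ⌊c k / log k⌋` -/
lemma logk : Tendsto (fun k : ℕ => Real.log (k : ℝ)) atTop atTop :=
  Real.tendsto_log_atTop.comp tendsto_natCast_atTop_atTop

lemma k_div_log : Tendsto (fun k : ℕ => (k : ℝ) / Real.log k) atTop atTop := by
  have h1 : Tendsto (fun x : ℝ => x / Real.log x) atTop atTop := by
    have h2 := (Real.isLittleO_log_id_atTop).tendsto_div_nhds_zero
    have h3 : Tendsto (fun x : ℝ => Real.log x / x) atTop (𝓝[>] 0) := by
      rw [tendsto_nhdsWithin_iff]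
      refine ⟨h2, ?_⟩
      filter_upwards [eventually_gt_atTop 1] with x hx
      exact div_pos (Real.log_pos hx) (by linarith)
    refine (h3.inv_tendsto_nhdsGT_zero).congr fun x => ?_
    simp only [Pi.inv_apply, inv_div]
  exact h1.comp tendsto_natCast_atTop_atTop

/-- `log ⌊c k / log k⌋ / log k → 1` -/
lemma log_floor {c : ℝ} (hc : 0 < c) :
    Tendsto (fun k : ℕ => Real.log ((⌊c * ((k : ℝ) / Real.log k)⌋₊ : ℕ) : ℝ) / Real.log k) atTop (𝓝 1) := by
  -- between `(c/2) k / log k` and `c k / log k`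
  have hll : Tendsto (fun k : ℕ => Real.log (Real.log (k : ℝ)) / Real.log k) atTop (𝓝 0) := by
    have h1 : Tendsto (fun x : ℝ => Real.log x / x) atTop (𝓝 0) :=
      (Real.isLittleO_log_id_atTop).tendsto_div_nhds_zero
    exact h1.comp logk
  have hcst : ∀ d : ℝ, Tendsto (fun k : ℕ => d / Real.log (k : ℝ) + 1 - Real.log (Real.log (k : ℝ)) / Real.log k)
      atTop (𝓝 1) := by
    intro d
    have h1 := (((tendsto_const_nhds (x := d)).div_atTop logk).add_const 1).sub hll
    simpa using h1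
  refine tendsto_of_tendsto_of_tendsto_of_le_of_le' (hcst (Real.log (c / 2))) (hcst (Real.log c)) ?_ ?_
  · filter_upwards [k_div_log.eventually_ge_atTop (2 / c), logk.eventually_gt_atTop 1, eventually_gt_atTop 1]
      with k h1 h2 h3
    have hk0 : (0 : ℝ) < k := by exact_mod_cast (by omega : 0 < k)
    have hl0 : 0 < Real.log (k : ℝ) := by linarith
    have hx : 2 ≤ c * ((k : ℝ) / Real.log k) := by
      have := mul_le_mul_of_nonneg_left h1 hc.le
      rwa [mul_div_cancel₀ _ hc.ne'] at this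
    have hfl : c / 2 * ((k : ℝ) / Real.log k) ≤ (⌊c * ((k : ℝ) / Real.log k)⌋₊ : ℝ) := by
      have := Nat.lt_floor_add_one (c * ((k : ℝ) / Real.log k))
      linarith
    have h4 : Real.log (c / 2 * ((k : ℝ) / Real.log k)) ≤ Real.log (⌊c * ((k : ℝ) / Real.log k)⌋₊ : ℝ) :=
      Real.log_le_log (by positivity) hfl
    rw [Real.log_mul (by positivity) (by positivity), Real.log_div hk0.ne' hl0.ne'] at h4
    rw [le_div_iff₀ hl0]
    have e : (Real.log (c / 2) / Real.log k + 1 - Real.log (Real.log k) / Real.log k) * Real.log k =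
        Real.log (c / 2) + (Real.log k - Real.log (Real.log k)) := by
      field_simp
      ring
    rw [e]
    exact h4
  · filter_upwards [k_div_log.eventually_ge_atTop (2 / c), logk.eventually_gt_atTop 1, eventually_gt_atTop 1]
      with k h1 h2 h3
    have hk0 : (0 : ℝ) < k := by exact_mod_cast (by omega : 0 < k)
    have hl0 : 0 < Real.log (k : ℝ) := by linarith
    have hx : 2 ≤ c * ((k : ℝ) / Real.log k) := by
      have := mul_le_mul_of_nonneg_left h1 hc.le
      rwa [mul_div_cancel₀ _ hc.ne'] at this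
    have hfl : (⌊c * ((k : ℝ) / Real.log k)⌋₊ : ℝ) ≤ c * ((k : ℝ) / Real.log k) := Nat.floor_le (by positivity)
    have hpos : (0 : ℝ) < (⌊c * ((k : ℝ) / Real.log k)⌋₊ : ℝ) := by
      have := Nat.lt_floor_add_one (c * ((k : ℝ) / Real.log k))
      linarith
    have h4 := Real.log_le_log hpos hfl
    rw [Real.log_mul (by positivity) (by positivity), Real.log_div hk0.ne' hl0.ne'] at h4
    rw [div_le_iff₀ hl0]
    have e : (Real.log c / Real.log k + 1 - Real.log (Real.log k) / Real.log k) * Real.log k =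
        Real.log c + (Real.log k - Real.log (Real.log k)) := by
      field_simp
      ring
    rw [e]
    exact h4

lemma alg0 (a b z : ℝ) (hz : z ≠ 0) : a * z * (b / z) = a * b := by
  field_simp

lemma alg1 (a d e ε : ℝ) (ha : a ≠ 0) (hd : d ≠ 0) (he : e ≠ 0) (hε : ε ≠ 0) :
    2 * (1 / a / (ε * d * e)) * (a * (d * e)) = 2 / ε := by
  field_simp

/-- `P(⌊c k / log k⌋) log k → exp (- γ)` -/
lemma mert_floor {c : ℝ} (hc : 0 < c) :
    Tendsto (fun k : ℕ => Pz ⌊c * ((k : ℝ) / Real.log k)⌋₊ * Real.log k) atTop (𝓝 e0) := by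
  have hf : Tendsto (fun k : ℕ => ⌊c * ((k : ℝ) / Real.log k)⌋₊) atTop atTop :=
    tendsto_nat_floor_atTop.comp (k_div_log.const_mul_atTop hc)
  have h1 := (mert.comp hf).mul ((log_floor hc).inv₀ one_ne_zero)
  rw [inv_one, mul_one] at h1
  refine h1.congr' ?_
  filter_upwards [hf.eventually_gt_atTop 1, logk.eventually_gt_atTop 0] with k hk hl
  have h2 : Real.log ((⌊c * ((k : ℝ) / Real.log k)⌋₊ : ℕ) : ℝ) ≠ 0 := (Real.log_pos (by exact_mod_cast hk)).ne'
  simp only [Function.comp]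
  rw [inv_div]
  exact alg0 _ _ _ h2

open Classical in
/-- **lower bound for almost all sets of shifts** -/
theorem lower {ε : ℝ} (hε : 0 < ε) (hε1 : ε < 1) :
    ∃ k₀ : ℕ, ∀ k : ℕ, k₀ ≤ k → ∃ n₀ : ℕ, ∀ F : Finset ℕ, n₀ ≤ F.card →
      (((F.powersetCard k).filter (fun I => ¬ ∃ J ⊆ I, (1 / 4 * (1 - ε) * e0 * (k / Real.log k) ≤ J.card) ∧
        Oft J)).card : ℝ) ≤ ε * (F.card.choose k : ℝ) := by
  have he := e0_pos
  obtain ⟨c, hc⟩ : ∃ c : ℝ, c = (1 - ε / 2) * e0 := ⟨_, rfl⟩
  have hc0 : 0 < c := by rw [hc]; exact mul_pos (by linarith) he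
  -- `k P(T) ≥ (1 - ε / 4) e0 k / log k`, `T ≤ (1 - ε / 2) e0 k / log k`
  have hlim := (mert_floor hc0).eventually_const_lt (show (1 - ε / 4) * e0 < e0 by nlinarith)
  have hbig : ∀ᶠ k : ℕ in atTop, 2 * (1 / (ε / 4) ^ 2 / (ε * (1 - ε / 4) * e0)) ≤ (k : ℝ) / Real.log k ∧
      1 / (ε / 2 * e0) ≤ (k : ℝ) / Real.log k ∧ 1 / c ≤ (k : ℝ) / Real.log k :=
    (k_div_log.eventually_ge_atTop _).and ((k_div_log.eventually_ge_atTop _).and (k_div_log.eventually_ge_atTop _))
  obtain ⟨k₁, hk₁⟩ := eventually_atTop.1 (hlim.and hbig)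
  refine ⟨max k₁ 3, fun k hk => ?_⟩
  obtain ⟨hP, hb1, hb2, hb3⟩ := hk₁ k ((le_max_left _ _).trans hk)
  have hk3 : 3 ≤ k := (le_max_right _ _).trans hk
  have hk0 : (0 : ℝ) < k := by exact_mod_cast (by omega : 0 < k)
  have hlog : 0 < Real.log k := Real.log_pos (by exact_mod_cast (by omega : 1 < k))
  obtain ⟨w, hw⟩ : ∃ w : ℝ, w = (k : ℝ) / Real.log k := ⟨_, rfl⟩
  rw [← hw] at hP hb1 hb2 hb3 ⊢
  have hw0 : 0 < w := by rw [hw]; positivity
  obtain ⟨T, hT⟩ : ∃ T : ℕ, T = ⌊c * w⌋₊ := ⟨_, rfl⟩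
  rw [← hT] at hP
  have hTle : (T : ℝ) ≤ c * w := by rw [hT]; exact Nat.floor_le (by positivity)
  have hTlt : c * w < T + 1 := by rw [hT]; exact Nat.lt_floor_add_one _
  have hcw : 1 ≤ c * w := by
    rw [div_le_iff₀ hc0] at hb3
    linarith
  have hT1 : 1 ≤ T := by
    rw [hT]
    exact Nat.le_floor (by exact_mod_cast hcw)
  have hPp := Pz_pos T
  have hkP : (1 - ε / 4) * e0 * w ≤ k * Pz T := by
    have h1 : (1 - ε / 4) * e0 / Real.log k ≤ Pz T := by
      rw [div_le_iff₀ hlog]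
      exact hP.le
    calc (1 - ε / 4) * e0 * w = k * ((1 - ε / 4) * e0 / Real.log k) := by rw [hw]; ring
      _ ≤ _ := mul_le_mul_of_nonneg_left h1 hk0.le
  have hkT : T ≤ k := by
    have h1 : Pz T ≤ 1 := by
      unfold Pz
      apply Finset.prod_le_one
      · intro p hp
        have h2 := (mem_filter.1 hp).2.two_le
        have : (p : ℝ)⁻¹ ≤ 1 := inv_le_one_of_one_le₀ (by exact_mod_cast (by omega : 1 ≤ p))
        linarith
      · intro p _
        have : (0 : ℝ) ≤ (p : ℝ)⁻¹ := by positivity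
        linarith
    have h2 : (T : ℝ) ≤ k := by
      calc (T : ℝ) ≤ c * w := hTle
        _ ≤ (1 - ε / 4) * e0 * w := by
            rw [hc]
            apply mul_le_mul_of_nonneg_right _ hw0.le
            exact mul_le_mul_of_nonneg_right (by linarith) he.le
        _ ≤ k * Pz T := hkP
        _ ≤ k * 1 := mul_le_mul_of_nonneg_left h1 hk0.le
        _ = k := mul_one _
    exact_mod_cast h2
  have hD : (0 : ℝ) < 2 ^ T * (T.factorial : ℝ) * (k.choose T : ℝ) := by
    have : (0 : ℝ) < (k.choose T : ℝ) := by exact_mod_cast Nat.choose_pos hkT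
    positivity
  obtain ⟨n₁, hn₁⟩ := few_bad hT1 (δ := ε / 2 / (2 ^ T * (T.factorial : ℝ) * (k.choose T : ℝ))) (by positivity)
  refine ⟨max ⌈(n₁ : ℝ) / Pz T⌉₊ (max k (2 * T)), fun F hFn => ?_⟩
  obtain ⟨V, hVF, hVc, hVadm⟩ := select_nat T F
  have hF1 : ⌈(n₁ : ℝ) / Pz T⌉₊ ≤ F.card := (le_max_left _ _).trans hFn
  have hFk : k ≤ F.card := (le_max_left _ _).trans ((le_max_right _ _).trans hFn)
  have hF2 : 2 * T ≤ F.card := (le_max_right _ _).trans ((le_max_right _ _).trans hFn)
  have hV1 : n₁ ≤ V.card := by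
    have h1 : (n₁ : ℝ) / Pz T ≤ F.card := (Nat.le_ceil _).trans (by exact_mod_cast hF1)
    rw [div_le_iff₀ hPp] at h1
    have : (n₁ : ℝ) ≤ V.card := by linarith
    exact_mod_cast this
  have hbad := hn₁ V hVadm hV1
  obtain ⟨n, hn⟩ : ∃ n : ℕ, n = F.card := ⟨_, rfl⟩
  rw [← hn] at hVc hFk hF2 ⊢
  have hn0 : (0 : ℝ) < n := by exact_mod_cast (by omega : 0 < n)
  obtain ⟨C, hC⟩ : ∃ C : ℝ, C = (n.choose k : ℝ) := ⟨_, rfl⟩
  have hC0 : 0 ≤ C := by rw [hC]; exact Nat.cast_nonneg _
  rw [← hC]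
  -- the two kinds of bad sets
  have hsub : (F.powersetCard k).filter (fun I => ¬ ∃ J ⊆ I, (1 / 4 * (1 - ε) * e0 * w ≤ J.card) ∧ Oft J) ⊆
      (F.powersetCard k).filter (fun I => (X V I : ℝ) < T) ∪
      ((V.powersetCard T).filter (Bad T)).biUnion (fun s => (F.powersetCard k).filter (fun I => s ⊆ I)) := by
    intro I hI
    rw [mem_filter] at hI
    rw [mem_union]
    by_cases hX : (X V I : ℝ) < T
    · left
      rw [mem_filter]
      exact ⟨hI.1, hX⟩
    · right
      push Not at hX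
      have hX' : T ≤ (V.filter (fun a => a ∈ I)).card := by
        have h1 : (T : ℝ) ≤ ((V.filter (fun a => a ∈ I)).card : ℝ) := hX
        exact_mod_cast h1
      obtain ⟨s, hs, hsc⟩ := exists_subset_card_eq hX'
      rw [mem_biUnion]
      have hsI : s ⊆ I := fun a ha => (mem_filter.1 (hs ha)).2
      refine ⟨s, ?_, ?_⟩
      · rw [mem_filter, mem_powersetCard]
        refine ⟨⟨hs.trans (filter_subset _ _), hsc⟩, fun J hJ hTJ hO => hI.2 ⟨J, hJ.trans hsI, ?_, hO⟩⟩
        have h2 : (T : ℝ) ≤ 4 * J.card := by exact_mod_cast hTJ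
        -- T ≥ c w - 1 ≥ (1 - ε) e0 w
        have h3 : (1 - ε) * e0 * w ≤ T := by
          have h4 : 1 ≤ ε / 2 * e0 * w := by
            rw [div_le_iff₀ (by positivity)] at hb2
            linarith
          have h5 : c * w = (1 - ε) * e0 * w + ε / 2 * e0 * w := by rw [hc]; ring
          linarith
        linarith
      · rw [mem_filter]
        exact ⟨hI.1, hsI⟩
  have hcard := (card_le_card hsub).trans ((card_union_le _ _).trans (Nat.add_le_add_left card_biUnion_le _))
  have hcardr : (((F.powersetCard k).filter (fun I => ¬ ∃ J ⊆ I, (1 / 4 * (1 - ε) * e0 * w ≤ J.card) ∧ Oft J)).card : ℝ) ≤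
      (((F.powersetCard k).filter (fun I => (X V I : ℝ) < T)).card : ℝ) +
      ∑ s ∈ (V.powersetCard T).filter (Bad T), (((F.powersetCard k).filter (fun I => s ⊆ I)).card : ℝ) := by
    exact_mod_cast hcard
  -- first kind: Chebyshev
  have hfirst : (((F.powersetCard k).filter (fun I => (X V I : ℝ) < T)).card : ℝ) ≤ ε / 2 * C := by
    obtain ⟨m, hm⟩ : ∃ m : ℝ, m = (k : ℝ) * V.card / F.card := ⟨_, rfl⟩
    have hmge : (1 - ε / 4) * e0 * w ≤ m := by
      refine hkP.trans ?_
      rw [hm, le_div_iff₀ (by rw [← hn]; exact hn0), ← hn]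
      calc (k : ℝ) * Pz T * n = k * (Pz T * n) := by ring
        _ ≤ k * V.card := mul_le_mul_of_nonneg_left hVc hk0.le
    have hm0 : 0 < m := lt_of_lt_of_le (by
      apply mul_pos (mul_pos (by linarith) he) hw0) hmge
    have hTm : (T : ℝ) ≤ (1 - ε / 4) * m := by
      calc (T : ℝ) ≤ c * w := hTle
        _ = (1 - ε / 2) * e0 * w := by rw [hc]
        _ ≤ (1 - ε / 4) * ((1 - ε / 4) * e0 * w) := by
            have : 0 ≤ e0 * w := by positivity
            nlinarith [sq_nonneg (ε / 4)]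
        _ ≤ _ := mul_le_mul_of_nonneg_left hmge (by linarith)
    have h1 := cheb hVF (k := k) (by omega) (by rw [← hn]; exact hFk) (t := (T : ℝ)) (by
      rw [← hm]
      nlinarith)
    rw [← hm, ← hn, ← hC] at h1
    obtain ⟨y, hy⟩ : ∃ y : ℝ, y = (((F.powersetCard k).filter (fun I => (X V I : ℝ) < T)).card : ℝ) := ⟨_, rfl⟩
    have h1' : y * (m - T) ^ 2 ≤ m * C := by rw [hy]; exact h1
    rw [← hy]
    have hy0 : 0 ≤ y := by rw [hy]; exact Nat.cast_nonneg _
    have h2 : (ε / 4 * m) ^ 2 ≤ (m - T) ^ 2 := by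
      apply pow_le_pow_left₀ (by positivity)
      linarith
    have h3 : y * (ε / 4 * m) ^ 2 ≤ m * C := (mul_le_mul_of_nonneg_left h2 hy0).trans h1'
    have h4 : y * ((ε / 4) ^ 2 * m) ≤ C := by
      have h5 : m * (y * ((ε / 4) ^ 2 * m)) ≤ m * C := by
        refine le_trans (le_of_eq ?_) h3
        ring
      exact le_of_mul_le_mul_left h5 hm0
    -- (ε/4)^2 m ≥ 2 / ε
    have h6 : 2 / ε ≤ (ε / 4) ^ 2 * m := by
      have h7 : 2 * (1 / (ε / 4) ^ 2 / (ε * (1 - ε / 4) * e0)) * ((ε / 4) ^ 2 * ((1 - ε / 4) * e0)) ≤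
          w * ((ε / 4) ^ 2 * ((1 - ε / 4) * e0)) := by
        apply mul_le_mul_of_nonneg_right hb1
        have : 0 < 1 - ε / 4 := by linarith
        positivity
      have h8 : 2 * (1 / (ε / 4) ^ 2 / (ε * (1 - ε / 4) * e0)) * ((ε / 4) ^ 2 * ((1 - ε / 4) * e0)) = 2 / ε := by
        have : 1 - ε / 4 ≠ 0 := by linarith
        exact alg1 _ _ _ _ (by positivity) this he.ne' hε.ne'
      rw [h8] at h7
      calc 2 / ε ≤ w * ((ε / 4) ^ 2 * ((1 - ε / 4) * e0)) := h7
        _ = (ε / 4) ^ 2 * ((1 - ε / 4) * e0 * w) := by ring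
        _ ≤ _ := mul_le_mul_of_nonneg_left hmge (by positivity)
    have h9 : y * (2 / ε) ≤ C := (mul_le_mul_of_nonneg_left h6 hy0).trans h4
    rw [mul_div_assoc', div_le_iff₀ hε] at h9
    linarith
  -- second kind: supersets of the bad sets
  have hsecond : ∑ s ∈ (V.powersetCard T).filter (Bad T), (((F.powersetCard k).filter (fun I => s ⊆ I)).card : ℝ) ≤
      ε / 2 * C := by
    obtain ⟨c2, hc2⟩ : ∃ c2 : ℝ, c2 = ((n - T).choose (k - T) : ℝ) := ⟨_, rfl⟩
    have hc20 : 0 ≤ c2 := by rw [hc2]; exact Nat.cast_nonneg _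
    have h1 : ∑ s ∈ (V.powersetCard T).filter (Bad T), (((F.powersetCard k).filter (fun I => s ⊆ I)).card : ℝ) ≤
        (((V.powersetCard T).filter (Bad T)).card : ℝ) * c2 := by
      rw [← nsmul_eq_mul, ← sum_const]
      apply sum_le_sum
      intro s hs
      rw [mem_filter, mem_powersetCard] at hs
      have := supersets F s k T (hs.1.1.trans hVF) hs.1.2
      rw [← hn] at this
      rw [hc2]
      exact_mod_cast this
    have h2 : (n.choose T : ℝ) * c2 = C * (k.choose T : ℝ) := by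
      rw [hC, hc2]
      exact_mod_cast (Nat.choose_mul (n := n) (k := k) (s := T) hkT).symm
    have hvn : (V.card : ℝ) ≤ n := by rw [hn]; exact_mod_cast card_le_card hVF
    have hnT : (n : ℝ) ^ T ≤ 2 ^ T * (T.factorial : ℝ) * (n.choose T : ℝ) := by
      have h3 : (n + 1 - T) ^ T ≤ n.descFactorial T := Nat.pow_sub_le_descFactorial _ _
      have h4 : (n.descFactorial T : ℝ) = T.factorial * (n.choose T : ℝ) := by
        exact_mod_cast Nat.descFactorial_eq_factorial_mul_choose n T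
      have h5 : ((n : ℝ) / 2) ^ T ≤ ((n + 1 - T : ℕ) : ℝ) ^ T := by
        apply pow_le_pow_left₀ (by positivity)
        rw [Nat.cast_sub (by omega)]
        have : (2 * T : ℝ) ≤ n := by exact_mod_cast hF2
        push_cast
        linarith
      have h6 : ((n + 1 - T : ℕ) : ℝ) ^ T ≤ (n.descFactorial T : ℝ) := by exact_mod_cast h3
      have h7 := h5.trans h6
      rw [h4, div_pow, div_le_iff₀ (by positivity)] at h7
      linarith
    refine h1.trans ?_
    calc (((V.powersetCard T).filter (Bad T)).card : ℝ) * c2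
        ≤ (ε / 2 / (2 ^ T * (T.factorial : ℝ) * (k.choose T : ℝ)) * (V.card : ℝ) ^ T) * c2 :=
          mul_le_mul_of_nonneg_right hbad hc20
      _ ≤ (ε / 2 / (2 ^ T * (T.factorial : ℝ) * (k.choose T : ℝ)) * (2 ^ T * (T.factorial : ℝ) * (n.choose T : ℝ))) * c2 := by
          apply mul_le_mul_of_nonneg_right _ hc20
          apply mul_le_mul_of_nonneg_left _ (by positivity)
          exact (pow_le_pow_left₀ (Nat.cast_nonneg _) hvn T).trans hnT
      _ = ε / 2 / (2 ^ T * (T.factorial : ℝ) * (k.choose T : ℝ)) * (2 ^ T * (T.factorial : ℝ)) * ((n.choose T : ℝ) * c2) := by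
          ring
      _ = ε / 2 * C := by
          rw [h2]
          have : (k.choose T : ℝ) ≠ 0 := by
            have := Nat.choose_pos hkT
            positivity
          field_simp
  calc _ ≤ _ := hcardr
    _ ≤ ε / 2 * C + ε / 2 * C := add_le_add hfirst hsecond
    _ = ε * C := by ring

end Pool.Agent.U404.AS
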