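import Pool.Agent.U404.AS.Hyp
import Pool.Agent.U404.AS.Low
import Pool.Agent.U403.Dick.Upp

/-! # Almost all sets of `k` elements of an interval have few elements without small prime factors after any shift -/

set_option autoImplicit false

namespace Pool.Agent.U404.AS

open Finset Filter Topology
open Pool.Agent.U403.Dick (Pz Pz_pos Qy Qy_pos Qy_le Qy_totient)

lemma desc_ratio {s n : ℕ} (h : s ≤ n) (j : ℕ) : s.descFactorial j * n ^ j ≤ n.descFactorial j * s ^ j := by
  induction j with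
  | zero => simp
  | succ j ih =>
    rw [Nat.descFactorial_succ, Nat.descFactorial_succ, pow_succ, pow_succ]
    have h1 : (s - j) * n ≤ (n - j) * s := by
      rcases Nat.lt_or_ge s j with h2 | h2
      · rw [Nat.sub_eq_zero_of_le h2.le]
        simp
      · zify [h2, h2.trans h]
        have : (s : ℤ) ≤ n := by exact_mod_cast h
        nlinarith
    calc (s - j) * s.descFactorial j * (n ^ j * n) = ((s - j) * n) * (s.descFactorial j * n ^ j) := by ring
      _ ≤ ((n - j) * s) * (n.descFactorial j * s ^ j) := Nat.mul_le_mul h1 ih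
      _ = _ := by ring

lemma choose_desc_ratio {s n : ℕ} (h : s ≤ n) (j : ℕ) :
    (s.choose j : ℝ) * (n : ℝ) ^ j ≤ (n.choose j : ℝ) * (s : ℝ) ^ j := by
  have h1 := desc_ratio h j
  rw [Nat.descFactorial_eq_factorial_mul_choose, Nat.descFactorial_eq_factorial_mul_choose] at h1
  have h2 : s.choose j * n ^ j ≤ n.choose j * s ^ j := by
    have h3 : j.factorial * (s.choose j * n ^ j) ≤ j.factorial * (n.choose j * s ^ j) := by
      calc _ = j.factorial * s.choose j * n ^ j := by ring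
        _ ≤ _ := h1
        _ = _ := by ring
    exact Nat.le_of_mul_le_mul_left h3 j.factorial_pos
  exact_mod_cast h2

/-- large deviations of the hypergeometric distribution -/
lemma chern {F S : Finset ℕ} (hSF : S ⊆ F) {k j L : ℕ} (hkF : k ≤ F.card) (hjk : j ≤ k) (hjL : j < L) :
    (((F.powersetCard k).filter (fun I => L ≤ X S I)).card : ℝ) ≤
      (F.card.choose k : ℝ) * ((k : ℝ) * S.card / F.card / ((L : ℝ) - j)) ^ j := by
  classical
  obtain ⟨n, hn⟩ : ∃ n : ℕ, n = F.card := ⟨_, rfl⟩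
  obtain ⟨s, hs⟩ : ∃ s : ℕ, s = S.card := ⟨_, rfl⟩
  obtain ⟨E, hE⟩ : ∃ E : Finset (Finset ℕ), E = (F.powersetCard k).filter (fun I => L ≤ X S I) := ⟨_, rfl⟩
  rw [← hE, ← hn, ← hs]
  rw [← hn] at hkF
  have hsn : s ≤ n := by rw [hs, hn]; exact card_le_card hSF
  have hjLr : (j : ℝ) < L := by exact_mod_cast hjL
  rcases Nat.eq_zero_or_pos j with rfl | hj
  · rw [pow_zero, mul_one, hE]
    have h1 := card_le_card (filter_subset (fun I => L ≤ X S I) (F.powersetCard k))
    rw [card_powersetCard, ← hn] at h1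
    exact_mod_cast h1
  have hn0 : 0 < n := by omega
  have hn0r : (0 : ℝ) < n := by exact_mod_cast hn0
  -- double counting of pairs
  have h1 : E.card * L.choose j ≤ s.choose j * (n - j).choose (k - j) := by
    calc E.card * L.choose j = ∑ I ∈ E, L.choose j := by rw [sum_const, smul_eq_mul]
      _ ≤ ∑ I ∈ E, ((S.powersetCard j).filter (fun t => t ⊆ I)).card := by
          apply sum_le_sum
          intro I hI
          rw [hE, mem_filter] at hI
          calc L.choose j ≤ (X S I).choose j := Nat.choose_le_choose j hI.2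
            _ = ((S.filter (fun a => a ∈ I)).powersetCard j).card := by
                rw [card_powersetCard]; rfl
            _ ≤ _ := by
                apply card_le_card
                intro t ht
                rw [mem_powersetCard] at ht
                rw [mem_filter, mem_powersetCard]
                exact ⟨⟨ht.1.trans (filter_subset _ _), ht.2⟩, fun a ha => (mem_filter.1 (ht.1 ha)).2⟩
      _ ≤ ∑ I ∈ F.powersetCard k, ((S.powersetCard j).filter (fun t => t ⊆ I)).card := by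
          apply sum_le_sum_of_subset
          rw [hE]
          exact filter_subset _ _
      _ = ∑ t ∈ S.powersetCard j, ((F.powersetCard k).filter (fun I => t ⊆ I)).card := by
          simp only [card_filter]
          exact sum_comm
      _ ≤ ∑ t ∈ S.powersetCard j, (n - j).choose (k - j) := by
          apply sum_le_sum
          intro t ht
          rw [mem_powersetCard] at ht
          rw [hn]
          exact supersets F t k j (ht.1.trans hSF) ht.2
      _ = _ := by rw [sum_const, card_powersetCard, smul_eq_mul, ← hs]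
  have h1r : (E.card : ℝ) * (L.choose j : ℝ) ≤ (s.choose j : ℝ) * ((n - j).choose (k - j) : ℝ) := by exact_mod_cast h1
  have h2 : (n.choose k : ℝ) * (k.choose j : ℝ) = (n.choose j : ℝ) * ((n - j).choose (k - j) : ℝ) := by
    exact_mod_cast Nat.choose_mul (n := n) (k := k) (s := j) hjk
  have h3 := choose_desc_ratio hsn j
  have h4 : (k.choose j : ℝ) * ((L : ℝ) - j) ^ j ≤ (L.choose j : ℝ) * (k : ℝ) ^ j := by
    have e1 : k.descFactorial j ≤ k ^ j := Nat.descFactorial_le_pow _ _
    have e2 : (L + 1 - j) ^ j ≤ L.descFactorial j := Nat.pow_sub_le_descFactorial _ _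
    have e3 : (k.descFactorial j : ℝ) = j.factorial * (k.choose j : ℝ) := by
      exact_mod_cast Nat.descFactorial_eq_factorial_mul_choose k j
    have e4 : (L.descFactorial j : ℝ) = j.factorial * (L.choose j : ℝ) := by
      exact_mod_cast Nat.descFactorial_eq_factorial_mul_choose L j
    have e1' : (k.descFactorial j : ℝ) ≤ (k : ℝ) ^ j := by exact_mod_cast e1
    have e2' : ((L + 1 - j : ℕ) : ℝ) ^ j ≤ (L.descFactorial j : ℝ) := by exact_mod_cast e2
    have e5 : ((L : ℝ) - j) ^ j ≤ ((L + 1 - j : ℕ) : ℝ) ^ j := by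
      apply pow_le_pow_left₀ (by linarith)
      rw [Nat.cast_sub (by omega)]
      push_cast
      linarith
    have hjf : (0 : ℝ) < j.factorial := by exact_mod_cast j.factorial_pos
    have h5 : (j.factorial : ℝ) * ((k.choose j : ℝ) * ((L : ℝ) - j) ^ j) ≤
        j.factorial * ((L.choose j : ℝ) * (k : ℝ) ^ j) := by
      calc (j.factorial : ℝ) * ((k.choose j : ℝ) * ((L : ℝ) - j) ^ j)
          = (k.descFactorial j : ℝ) * ((L : ℝ) - j) ^ j := by rw [e3]; ring
        _ ≤ (k : ℝ) ^ j * (L.descFactorial j : ℝ) :=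
            mul_le_mul e1' (e5.trans e2') (pow_nonneg (by linarith) _) (by positivity)
        _ = _ := by rw [e4]; ring
    exact le_of_mul_le_mul_left h5 hjf
  have hLj : (0 : ℝ) < (L : ℝ) - j := by linarith
  have hLc : (0 : ℝ) < (L.choose j : ℝ) := by exact_mod_cast Nat.choose_pos hjL.le
  have hnc : (0 : ℝ) < (n.choose j : ℝ) := by exact_mod_cast Nat.choose_pos (by omega)
  have hkey : (E.card : ℝ) * ((n : ℝ) ^ j * ((L : ℝ) - j) ^ j) ≤ (n.choose k : ℝ) * ((k : ℝ) ^ j * (s : ℝ) ^ j) := by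
    have hA : (0 : ℝ) < (L.choose j : ℝ) * (n.choose j : ℝ) := by positivity
    refine le_of_mul_le_mul_left ?_ hA
    calc (L.choose j : ℝ) * (n.choose j : ℝ) * ((E.card : ℝ) * ((n : ℝ) ^ j * ((L : ℝ) - j) ^ j))
        = ((E.card : ℝ) * (L.choose j : ℝ)) * ((n.choose j : ℝ) * ((n : ℝ) ^ j * ((L : ℝ) - j) ^ j)) := by ring
      _ ≤ ((s.choose j : ℝ) * ((n - j).choose (k - j) : ℝ)) * ((n.choose j : ℝ) * ((n : ℝ) ^ j * ((L : ℝ) - j) ^ j)) :=
          mul_le_mul_of_nonneg_right h1r (by positivity)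
      _ = ((s.choose j : ℝ) * (n : ℝ) ^ j) * ((n.choose j : ℝ) * ((n - j).choose (k - j) : ℝ)) * ((L : ℝ) - j) ^ j := by
          ring
      _ = ((s.choose j : ℝ) * (n : ℝ) ^ j) * ((n.choose k : ℝ) * (k.choose j : ℝ)) * ((L : ℝ) - j) ^ j := by rw [h2]
      _ = ((s.choose j : ℝ) * (n : ℝ) ^ j) * ((n.choose k : ℝ) * ((k.choose j : ℝ) * ((L : ℝ) - j) ^ j)) := by ring
      _ ≤ ((n.choose j : ℝ) * (s : ℝ) ^ j) * ((n.choose k : ℝ) * ((L.choose j : ℝ) * (k : ℝ) ^ j)) := by
          apply mul_le_mul h3 _ (by positivity) (by positivity)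
          exact mul_le_mul_of_nonneg_left h4 (Nat.cast_nonneg _)
      _ = _ := by ring
  rw [div_pow, div_pow, mul_pow, ← mul_div_assoc, ← mul_div_assoc, div_div, le_div_iff₀ (by positivity)]
  exact hkey

/-- the numbers `b ≤ n` for which `e + b` has no prime factor up to `y` -/
def Sy (y n e : ℕ) : Finset ℕ := (Icc 1 n).filter (fun b => (Qy y).Coprime (e + b))

lemma Sy_card (y n e : ℕ) : ((Sy y n e).card : ℝ) ≤ Pz y * n + Qy y := by
  have hQ0 := Qy_pos y
  have h1 : (Sy y n e).card ≤ ((Ico (e + 1) (e + 1 + n)).filter (fun x => (Qy y).Coprime x)).card := by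
    apply card_le_card_of_injOn (fun b => e + b)
    · intro b hb
      have hb' := mem_filter.1 (mem_coe.1 hb)
      rw [mem_Icc] at hb'
      rw [mem_coe, mem_filter, mem_Ico]
      exact ⟨⟨by dsimp only; omega, by dsimp only; omega⟩, hb'.2⟩
    · intro a _ b _ hab
      dsimp only at hab
      omega
  have h2 := h1.trans (Nat.Ico_filter_coprime_le (e + 1) n hQ0.ne')
  have h3 : ((Sy y n e).card : ℝ) ≤ ((Qy y).totient : ℝ) * (((n / Qy y : ℕ) : ℝ) + 1) := by exact_mod_cast h2
  refine h3.trans ?_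
  have hQr : (0 : ℝ) < Qy y := by exact_mod_cast hQ0
  have hP := Pz_pos y
  have hP1 : ((Qy y).totient : ℝ) ≤ Qy y := by exact_mod_cast Nat.totient_le _
  have h4 : ((n / Qy y : ℕ) : ℝ) ≤ n / Qy y := Nat.cast_div_le
  calc ((Qy y).totient : ℝ) * (((n / Qy y : ℕ) : ℝ) + 1) ≤ ((Qy y).totient : ℝ) * (n / Qy y + 1) := by gcongr
    _ = ((Qy y).totient : ℝ) * (n / Qy y) + (Qy y).totient := by ring
    _ ≤ Pz y * n + Qy y := by
        apply add_le_add _ hP1
        rw [Qy_totient]
        apply le_of_eq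
        field_simp

/-- the elements `i` of `I` for which no prime up to `k` divides `m + i` -/
def rough (k m : ℕ) (I : Finset ℕ) : Finset ℕ := I.filter (fun i => ∀ p ≤ k, p.Prime → ¬ p ∣ m + i)

open Classical in
lemma rough_sub {k y n : ℕ} (hyk : y ≤ k) (L : ℕ) :
    ((Icc 1 n).powersetCard k).filter (fun I => ∃ m, L ≤ (rough k m I).card) ⊆
      (range (Qy y)).biUnion (fun e => ((Icc 1 n).powersetCard k).filter (fun I => L ≤ X (Sy y n e) I)) := by
  intro I hI
  rw [mem_filter] at hI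
  obtain ⟨hI1, m, hm⟩ := hI
  rw [mem_biUnion]
  refine ⟨m % Qy y, mem_range.2 (Nat.mod_lt _ (Qy_pos y)), ?_⟩
  rw [mem_filter]
  refine ⟨hI1, hm.trans ?_⟩
  unfold X
  apply card_le_card
  intro i hi
  unfold rough at hi
  rw [mem_filter] at hi
  rw [mem_filter]
  refine ⟨?_, hi.1⟩
  unfold Sy
  rw [mem_filter]
  refine ⟨(mem_powersetCard.1 hI1).1 hi.1, ?_⟩
  unfold Qy
  apply Nat.Coprime.prod_left
  intro p hp
  have hpp := (mem_filter.1 hp).2
  have hpy := (mem_Icc.1 (mem_filter.1 hp).1).2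
  rw [hpp.coprime_iff_not_dvd]
  intro hd
  apply hi.2 p (hpy.trans hyk) hpp
  have hpQ : p ∣ Qy y := by
    unfold Qy
    exact dvd_prod_of_mem (fun p => p) hp
  have h2 : m % Qy y ≡ m [MOD p] := (Nat.mod_modEq m (Qy y)).of_dvd hpQ
  have h3 : m % Qy y + i ≡ m + i [MOD p] := h2.add_right i
  unfold Qy at h3
  exact (h3.dvd_iff dvd_rfl).1 hd

open Classical in
/-- **upper bound for almost all subsets of an interval** -/
theorem upper {ε : ℝ} (hε : 0 < ε) (hε1 : ε < 1) :
    ∃ k₀ : ℕ, ∀ k : ℕ, k₀ ≤ k → ∃ n₀ : ℕ, ∀ n : ℕ, n₀ ≤ n →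
      ((((Icc 1 n).powersetCard k).filter (fun I => ∃ m, (1 + ε) * e0 * (k / Real.log k) < (rough k m I).card)).card : ℝ) ≤
        ε * (n.choose k : ℝ) := by
  have he := e0_pos
  obtain ⟨θ, hθ⟩ : ∃ θ : ℝ, θ = 1 / (1 + ε / 4) := ⟨_, rfl⟩
  have hθ0 : 0 < θ := by rw [hθ]; positivity
  have hθ1 : θ < 1 := by rw [hθ, div_lt_one (by positivity)]; linarith
  have hlθ : 0 < Real.log (1 / θ) := Real.log_pos (by rw [one_lt_div hθ0]; exact hθ1)
  have hl4 : 0 < Real.log 4 := Real.log_pos (by norm_num)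
  obtain ⟨η, hη⟩ : ∃ η : ℝ, η = min 1 (ε / 8 * e0 * Real.log (1 / θ) / Real.log 4) := ⟨_, rfl⟩
  have hη0 : 0 < η := by rw [hη]; exact lt_min one_pos (by positivity)
  have hη1 : η ≤ 1 := by rw [hη]; exact min_le_left _ _
  have hη4 : η * Real.log 4 ≤ ε / 8 * e0 * Real.log (1 / θ) := by
    have := min_le_right 1 (ε / 8 * e0 * Real.log (1 / θ) / Real.log 4)
    rw [← hη, le_div_iff₀ hl4] at this
    exact this
  have hlim := (mert_floor hη0).eventually_lt_const (show e0 < (1 + ε / 16) * e0 by nlinarith)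
  have hexp : Tendsto (fun x : ℝ => Real.exp (-(ε / 8 * e0 * Real.log (1 / θ)) * x) * (1 / θ)) atTop (𝓝 0) := by
    have h1 : Tendsto (fun x : ℝ => ε / 8 * e0 * Real.log (1 / θ) * x) atTop atTop :=
      tendsto_id.const_mul_atTop (by positivity)
    have h2 := (Real.tendsto_exp_neg_atTop_nhds_zero.comp h1).mul_const (1 / θ)
    rw [zero_mul] at h2
    refine h2.congr fun x => ?_
    simp only [Function.comp]
    congr 2
    ring
  have hexpk := (hexp.comp k_div_log).eventually_lt_const hε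
  have hbig : ∀ᶠ k : ℕ in atTop, 1 ≤ Real.log (k : ℝ) ∧ 1 ≤ (k : ℝ) / Real.log k :=
    (logk.eventually_ge_atTop 1).and (k_div_log.eventually_ge_atTop 1)
  obtain ⟨k₁, hk₁⟩ := eventually_atTop.1 ((hlim.and hexpk).and hbig)
  refine ⟨max k₁ 3, fun k hk => ?_⟩
  obtain ⟨⟨hP, hX⟩, hl1, hw1⟩ := hk₁ k ((le_max_left _ _).trans hk)
  have hk3 : 3 ≤ k := (le_max_right _ _).trans hk
  have hk0 : (0 : ℝ) < k := by exact_mod_cast (by omega : 0 < k)
  have hlog : 0 < Real.log k := by linarith
  simp only [Function.comp] at hX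
  obtain ⟨w, hw⟩ : ∃ w : ℝ, w = (k : ℝ) / Real.log k := ⟨_, rfl⟩
  rw [← hw] at hP hX hw1 ⊢
  have hw0 : 0 < w := by linarith
  have hwk : w ≤ k := by rw [hw]; exact div_le_self hk0.le hl1
  obtain ⟨y, hy⟩ : ∃ y : ℕ, y = ⌊η * w⌋₊ := ⟨_, rfl⟩
  rw [← hy] at hP
  have hyle : (y : ℝ) ≤ η * w := by rw [hy]; exact Nat.floor_le (by positivity)
  have hyk : y ≤ k := by
    have : (y : ℝ) ≤ k := by
      calc (y : ℝ) ≤ η * w := hyle
        _ ≤ 1 * w := mul_le_mul_of_nonneg_right hη1 hw0.le
        _ = w := one_mul _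
        _ ≤ k := hwk
    exact_mod_cast this
  obtain ⟨j, hj⟩ : ∃ j : ℕ, j = ⌊ε / 4 * e0 * w⌋₊ := ⟨_, rfl⟩
  have hjle : (j : ℝ) ≤ ε / 4 * e0 * w := by rw [hj]; exact Nat.floor_le (by positivity)
  have hjlt : ε / 4 * e0 * w < j + 1 := by rw [hj]; exact Nat.lt_floor_add_one _
  obtain ⟨L, hL⟩ : ∃ L : ℕ, L = ⌊(1 + ε) * e0 * w⌋₊ + 1 := ⟨_, rfl⟩
  have hLlt : (1 + ε) * e0 * w < L := by
    rw [hL]; push_cast; exact Nat.lt_floor_add_one _
  have hjL : j < L := by
    have : (j : ℝ) < L := by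
      refine lt_of_le_of_lt hjle (lt_of_le_of_lt ?_ hLlt)
      apply mul_le_mul_of_nonneg_right _ hw0.le
      exact mul_le_mul_of_nonneg_right (by linarith) he.le
    exact_mod_cast this
  have he1 : e0 ≤ 1 := by
    unfold e0
    rw [Real.exp_le_one_iff]
    have := Real.one_half_lt_eulerMascheroniConstant
    linarith
  have hjk : j ≤ k := by
    have : (j : ℝ) ≤ k := by
      calc (j : ℝ) ≤ ε / 4 * e0 * w := hjle
        _ ≤ 1 * 1 * w := by
            apply mul_le_mul_of_nonneg_right _ hw0.le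
            exact mul_le_mul (by linarith) he1 he.le (by norm_num)
        _ ≤ k := by linarith
    exact_mod_cast this
  have hPp := Pz_pos y
  have hQr : (0 : ℝ) < Qy y := by exact_mod_cast Qy_pos y
  refine ⟨max k ⌈(Qy y : ℝ) / (ε / 16 * Pz y)⌉₊, fun n hn => ?_⟩
  have hkn : k ≤ n := (le_max_left _ _).trans hn
  have hn0 : (0 : ℝ) < n := by exact_mod_cast (by omega : 0 < n)
  have hnQ : (Qy y : ℝ) ≤ ε / 16 * Pz y * n := by
    have h1 : (Qy y : ℝ) / (ε / 16 * Pz y) ≤ n :=
      (Nat.le_ceil _).trans (by exact_mod_cast (le_max_right _ _).trans hn)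
    rw [div_le_iff₀ (by positivity)] at h1
    linarith
  obtain ⟨C, hC⟩ : ∃ C : ℝ, C = (n.choose k : ℝ) := ⟨_, rfl⟩
  have hC0 : 0 ≤ C := by rw [hC]; exact Nat.cast_nonneg _
  rw [← hC]
  have hmem : (((Icc 1 n).powersetCard k).filter (fun I => ∃ m, (1 + ε) * e0 * w < (rough k m I).card)).card ≤
      (((Icc 1 n).powersetCard k).filter (fun I => ∃ m, L ≤ (rough k m I).card)).card := by
    apply card_le_card
    intro I hI
    rw [mem_filter] at hI ⊢
    obtain ⟨hI1, m, hm⟩ := hI
    refine ⟨hI1, m, ?_⟩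
    rw [hL]
    have := (Nat.floor_lt (by positivity)).2 hm
    omega
  have hone : ∀ e ∈ range (Qy y), ((((Icc 1 n).powersetCard k).filter (fun I => L ≤ X (Sy y n e) I)).card : ℝ) ≤
      C * θ ^ j := by
    intro e _
    have h1 := chern (F := Icc 1 n) (S := Sy y n e) (filter_subset _ _) (k := k) (j := j) (L := L) (by
      rw [Nat.card_Icc]; omega) hjk hjL
    rw [Nat.card_Icc, show n + 1 - 1 = n by omega, ← hC] at h1
    refine h1.trans (mul_le_mul_of_nonneg_left ?_ hC0)
    have hLj : (0 : ℝ) < (L : ℝ) - j := by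
      have : (j : ℝ) < L := by exact_mod_cast hjL
      linarith
    apply pow_le_pow_left₀ (by positivity)
    rw [div_le_iff₀ hLj, div_le_iff₀ hn0]
    have h2 := Sy_card y n e
    have h3 : ((Sy y n e).card : ℝ) ≤ (1 + ε / 16) * Pz y * n := by
      calc ((Sy y n e).card : ℝ) ≤ Pz y * n + Qy y := h2
        _ ≤ Pz y * n + ε / 16 * Pz y * n := by linarith
        _ = _ := by ring
    have h4 : (k : ℝ) * Pz y ≤ (1 + ε / 16) * e0 * w := by
      have h5 : Pz y ≤ (1 + ε / 16) * e0 / Real.log k := by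
        rw [le_div_iff₀ hlog]
        exact hP.le
      calc (k : ℝ) * Pz y ≤ k * ((1 + ε / 16) * e0 / Real.log k) := mul_le_mul_of_nonneg_left h5 hk0.le
        _ = _ := by rw [hw]; ring
    have h6 : (1 + 3 * ε / 4) * e0 * w ≤ (L : ℝ) - j := by
      have : (1 + 3 * ε / 4) * e0 * w = (1 + ε) * e0 * w - ε / 4 * e0 * w := by ring
      linarith
    have hew : 0 < e0 * w := by positivity
    calc (k : ℝ) * ((Sy y n e).card : ℝ) ≤ k * ((1 + ε / 16) * Pz y * n) := mul_le_mul_of_nonneg_left h3 hk0.le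
      _ = (1 + ε / 16) * (k * Pz y) * n := by ring
      _ ≤ (1 + ε / 16) * ((1 + ε / 16) * e0 * w) * n := by gcongr
      _ = (1 + ε / 16) ^ 2 * (e0 * w) * n := by ring
      _ ≤ θ * (1 + 3 * ε / 4) * (e0 * w) * n := by
          apply mul_le_mul_of_nonneg_right _ hn0.le
          apply mul_le_mul_of_nonneg_right _ hew.le
          rw [hθ, one_div_mul_eq_div, le_div_iff₀ (by positivity)]
          nlinarith [mul_pos hε hε, mul_pos (mul_pos hε hε) hε]
      _ = θ * ((1 + 3 * ε / 4) * e0 * w) * n := by ring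
      _ ≤ θ * ((L : ℝ) - j) * n := by gcongr
  have hsum : ((((Icc 1 n).powersetCard k).filter (fun I => ∃ m, L ≤ (rough k m I).card)).card : ℝ) ≤
      (Qy y : ℝ) * (C * θ ^ j) := by
    have h1 := (card_le_card (rough_sub (n := n) hyk L)).trans card_biUnion_le
    have h2 : ((((Icc 1 n).powersetCard k).filter (fun I => ∃ m, L ≤ (rough k m I).card)).card : ℝ) ≤
        ∑ e ∈ range (Qy y), ((((Icc 1 n).powersetCard k).filter (fun I => L ≤ X (Sy y n e) I)).card : ℝ) := by
      exact_mod_cast h1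
    refine h2.trans ((sum_le_sum hone).trans (le_of_eq ?_))
    rw [sum_const, card_range, nsmul_eq_mul]
  have hfin : (Qy y : ℝ) * θ ^ j ≤ ε := by
    have h1 : (Qy y : ℝ) ≤ (4 : ℝ) ^ y := by exact_mod_cast Qy_le y
    have h2 : (4 : ℝ) ^ y ≤ Real.exp (η * w * Real.log 4) := by
      rw [← Real.exp_log (show (0 : ℝ) < 4 by norm_num), ← Real.exp_nat_mul, Real.exp_log (by norm_num)]
      apply Real.exp_le_exp.2
      exact mul_le_mul_of_nonneg_right hyle hl4.le
    have h3 : θ ^ j ≤ Real.exp (-(ε / 4 * e0 * w) * Real.log (1 / θ)) * (1 / θ) := by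
      have h4 : θ = Real.exp (-Real.log (1 / θ)) := by
        rw [one_div, Real.log_inv, neg_neg, Real.exp_log hθ0]
      have h5 : 1 / θ = Real.exp (Real.log (1 / θ)) := (Real.exp_log (by positivity)).symm
      calc θ ^ j = Real.exp (-(j : ℝ) * Real.log (1 / θ)) := by
            conv_lhs => rw [h4]
            rw [← Real.exp_nat_mul]
            congr 1
            ring
        _ ≤ Real.exp ((1 - ε / 4 * e0 * w) * Real.log (1 / θ)) := by
            apply Real.exp_le_exp.2
            apply mul_le_mul_of_nonneg_right _ hlθ.le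
            linarith
        _ = Real.exp (-(ε / 4 * e0 * w) * Real.log (1 / θ)) * Real.exp (Real.log (1 / θ)) := by
            rw [← Real.exp_add]
            congr 1
            ring
        _ = _ := by rw [← h5]
    calc (Qy y : ℝ) * θ ^ j ≤ Real.exp (η * w * Real.log 4) *
          (Real.exp (-(ε / 4 * e0 * w) * Real.log (1 / θ)) * (1 / θ)) :=
          mul_le_mul (h1.trans h2) h3 (by positivity) (Real.exp_pos _).le
      _ = Real.exp (η * w * Real.log 4 + -(ε / 4 * e0 * w) * Real.log (1 / θ)) * (1 / θ) := by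
          rw [← mul_assoc, ← Real.exp_add]
      _ ≤ Real.exp (-(ε / 8 * e0 * Real.log (1 / θ)) * w) * (1 / θ) := by
          apply mul_le_mul_of_nonneg_right _ (by positivity)
          apply Real.exp_le_exp.2
          have h6 := mul_le_mul_of_nonneg_right hη4 hw0.le
          nlinarith
      _ ≤ ε := hX.le
  calc _ ≤ ((((Icc 1 n).powersetCard k).filter (fun I => ∃ m, L ≤ (rough k m I).card)).card : ℝ) := by
        exact_mod_cast hmem
    _ ≤ (Qy y : ℝ) * (C * θ ^ j) := hsum
    _ = (Qy y : ℝ) * θ ^ j * C := by ring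
    _ ≤ ε * C := mul_le_mul_of_nonneg_right hfin hC0

end Pool.Agent.U404.AS
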