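import Pool.Agent.U404.CP.Comb
import Pool.Agent.U404.CP.Box
import Pool.Agent.H362R2.CM.Final
import Pool.Agent.H461R2.PD.Comb

/-! # Almost all sets of `T` shifts contain `T / 4` shifts at which there are primes simultaneously -/

set_option autoImplicit false

namespace Pool.Agent.U404.AS

open Finset Pool.Agent.U404.CP

/-- the numbers `n + j`, `j ∈ J`, are simultaneously prime for infinitely many `n` -/
def Oft (J : Finset ℕ) : Prop := {n : ℕ | ∀ j ∈ J, (n + j).Prime}.Infinite

/-- no obstruction at any prime for a box without obstructions at the primes up to its size -/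
lemma local_all {T K : ℕ} (H : Fin T → Fin K → ℕ)
    (h : ∀ p : ℕ, p.Prime → p ≤ T * K → ∃ r : ℕ, ∀ g i, ¬ p ∣ r + H g i) (p : ℕ) (hp : p.Prime) :
    ∃ n : ℤ, ∀ g i, ¬ ((p : ℤ) ∣ 1 * n + (H g i : ℤ)) := by
  classical
  by_cases hle : p ≤ T * K
  · obtain ⟨r, hr⟩ := h p hp hle
    refine ⟨r, fun g i hd => hr g i ?_⟩
    rw [one_mul] at hd
    exact_mod_cast hd
  · have hfp : Fact p.Prime := ⟨hp⟩
    have hex : ∃ x : ZMod p, x ∉ (univ : Finset (Fin T × Fin K)).image (fun y => -((H y.1 y.2 : ℕ) : ZMod p)) := by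
      by_contra hcon
      push Not at hcon
      have h2 : (univ : Finset (ZMod p)).card ≤
          ((univ : Finset (Fin T × Fin K)).image (fun y => -((H y.1 y.2 : ℕ) : ZMod p))).card :=
        card_le_card fun x _ => hcon x
      have h3 := h2.trans card_image_le
      rw [card_univ, card_univ, ZMod.card, Fintype.card_prod, Fintype.card_fin, Fintype.card_fin] at h3
      omega
    obtain ⟨x, hx⟩ := hex
    refine ⟨(x.val : ℤ), fun g i hd => hx ?_⟩
    rw [one_mul, ← ZMod.intCast_zmod_eq_zero_iff_dvd] at hd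
    push_cast at hd
    rw [ZMod.natCast_zmod_val] at hd
    rw [mem_image]
    exact ⟨(g, i), mem_univ _, by linear_combination -hd⟩

/-- a set of `T` shifts which contains no good subset with `T / 4` elements -/
def Bad (T : ℕ) (s : Finset ℕ) : Prop := ∀ J ⊆ s, T ≤ 4 * J.card → ¬ Oft J

open Classical in
/-- few sets of `T` shifts are bad -/
theorem few_bad {T : ℕ} (hT1 : 1 ≤ T) {δ : ℝ} (hδ : 0 < δ) :
    ∃ n₁ : ℕ, ∀ V : Finset ℕ,
      (∀ p : ℕ, p ≤ T → p.Prime → ∃ r : ℤ, ∀ b ∈ V, ¬ (p : ℤ) ∣ r + (b : ℤ)) → n₁ ≤ V.card →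
      (((V.powersetCard T).filter (Bad T)).card : ℝ) ≤ δ * (V.card : ℝ) ^ T := by
  obtain ⟨K, hK, hex⟩ := Pool.Agent.H362R2.CM.quarter T
  have hQ1 : 1 ≤ (T * K).factorial * K := Nat.mul_pos (Nat.factorial_pos _) (by omega)
  obtain ⟨n₀, hn₀⟩ := Pool.Agent.H461R2.PD.blowup ((T * K).factorial * K) hQ1 T δ hδ
  refine ⟨n₀, fun V hadm hn => ?_⟩
  by_contra hcon
  push Not at hcon
  obtain ⟨B, hB⟩ : ∃ B : Finset (Finset ℕ), B = (V.powersetCard T).filter (Bad T) := ⟨_, rfl⟩
  rw [← hB] at hcon
  obtain ⟨E, hE⟩ : ∃ E : Finset (Fin T → V), ∀ u, u ∈ E ↔ (StrictMono u ∧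
      Bad T (univ.image (fun g : Fin T => (u g : ℕ)))) :=
    ⟨(Set.toFinite {u : Fin T → V | StrictMono u ∧
      Bad T (univ.image (fun g : Fin T => (u g : ℕ)))}).toFinset,
      fun u => Set.Finite.mem_toFinset _⟩
  have hBE : B.card ≤ E.card := by
    refine (card_le_card (t := E.image (fun u : Fin T → V => univ.image (fun g : Fin T => (u g : ℕ)))) ?_).trans
      card_image_le
    intro s hs
    rw [hB, mem_filter, mem_powersetCard] at hs
    obtain ⟨⟨hs1, hs2⟩, hs3⟩ := hs
    rw [mem_image]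
    have himg : (univ : Finset (Fin T)).image (fun g => s.orderEmbOfFin hs2 g) = s := by
      apply coe_injective
      rw [coe_image, coe_univ, Set.image_univ]
      exact range_orderEmbOfFin s hs2
    refine ⟨fun g => ⟨s.orderEmbOfFin hs2 g, hs1 (orderEmbOfFin_mem s hs2 g)⟩, ?_, himg⟩
    rw [hE]
    refine ⟨fun g g' hgg => ?_, ?_⟩
    · exact (s.orderEmbOfFin hs2).strictMono hgg
    · show Bad T ((univ : Finset (Fin T)).image (fun g => s.orderEmbOfFin hs2 g))
      rw [himg]
      exact hs3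
  have hW : Fintype.card V = V.card := Fintype.card_coe V
  obtain ⟨A, hA1, hA2⟩ := hn₀ V (by rw [hW]; exact hn) E (by
    rw [hW]
    have : (B.card : ℝ) ≤ E.card := by exact_mod_cast hBE
    linarith)
  obtain ⟨H, hH1, hH2, hH3⟩ := box_nat hK V hadm A hA1
  have hord : ∀ g g' : Fin T, g < g' → ∀ i i' : Fin K, (H g i : ℕ) < H g' i' := by
    intro g g' hgg i i'
    have hu := hA2 (fun j => if j = g then H g i else if j = g' then H g' i' else H j ⟨0, by omega⟩) (fun j => by
      split_ifs with h1 h2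
      · rw [h1]; exact hH1 g i
      · rw [h2]; exact hH1 g' i'
      · exact hH1 j _)
    rw [hE] at hu
    have h1 := hu.1 hgg
    simp only [if_true, if_neg hgg.ne'] at h1
    exact h1
  obtain ⟨S, c, hS, hinf⟩ := hex (fun _ _ => 1) (fun g i => ((H g i : ℕ) : ℤ)) (fun _ _ => one_pos) (by
    rintro ⟨g, i⟩ ⟨g', i'⟩ h
    have h1 : (H g i : ℕ) = H g' i' := by
      have := (Prod.mk.inj h).2
      exact_mod_cast this
    rcases lt_trichotomy g g' with h2 | h2 | h2
    · have := hord g g' h2 i i'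
      omega
    · subst h2
      have h3 := hH2 g (Subtype.ext h1)
      rw [h3]
    · have := hord g' g h2 i' i
      omega) (fun p hp => local_all (fun g i => (H g i : ℕ)) hH3 p hp)
  have hu := hA2 (fun g => H g (c g)) (fun g => hH1 g (c g))
  rw [hE] at hu
  refine hu.2 (S.image (fun g => (H g (c g) : ℕ))) (image_subset_image (subset_univ _)) ?_ ?_
  · rw [card_image_of_injective]
    · exact hS
    · intro g g' h
      rcases lt_trichotomy g g' with h2 | h2 | h2
      · have := hord g g' h2 (c g) (c g')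
        simp only at h
        omega
      · exact h2
      · have := hord g' g h2 (c g') (c g)
        simp only at h
        omega
  · refine hinf.mono ?_
    intro n hn j hj
    rw [mem_image] at hj
    obtain ⟨g, hg, rfl⟩ := hj
    have h1 := (hn g hg).2
    rw [one_mul] at h1
    rw [Nat.prime_iff_prime_int]
    push_cast
    exact h1

end Pool.Agent.U404.AS
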